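import Mathlib
import Pool.Agent.R127.LkkSupersat

/-!
Supersaturation of comparable pairs in `L(k,k)`.

Idea of the proof.  Give the cover `x < x + e_i` of `L(k,k)` (with `1 ≤ i ≤ k`) the weight
`p (2 k - p)`, `p = x_i + i`.  For this flow the difference of inflow and outflow of `x` is
`2 ∑ x_i - k ^ 2`, so it depends on the rank of `x` only.  The flow gives a random chain which passes
through almost all elements with nearly equal probability and through two elements of ranks differing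
by at least two with a conditional probability `O(k ^ (-2))`.
-/

namespace Pool.Agent.Results.MP_75c11f_co.Supersaturation

open Pool.Agent.R127.LkkFlow

/-- The ground set of the poset `L(k,k)`: the integer sequences `0 ≤ x_1 ≤ ... ≤ x_k ≤ k`. The order
is the coordinatewise order of `Fin k → ℕ`. -/
def L (k : ℕ) : Set (Fin k → ℕ) := {x | Monotone x ∧ ∀ i, x i ≤ k}

/-- The number of unordered comparable pairs of distinct elements of `U`, i.e. the number of edges
which the comparability graph induces on `U` (each such pair is counted once, as the ordered pair of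
its smaller and its larger element). -/
noncomputable def e {k : ℕ} (U : Set (Fin k → ℕ)) : ℕ :=
  {p : (Fin k → ℕ) × (Fin k → ℕ) | p.1 ∈ U ∧ p.2 ∈ U ∧ p.1 < p.2}.ncard

/-- **Supersaturation in `L(k,k)`**: there are constants `c₁, c₂ > 0` and `k₀` such that, for `k ≥ k₀`,
every `U ⊆ L(k,k)` with `|U| ≥ c₁ k^(-3/2) C(2k, k)` induces at least `c₂ k² |U|` edges in the
comparability graph. -/
theorem result : ∃ c₁ c₂ : ℝ, 0 < c₁ ∧ 0 < c₂ ∧ ∃ k₀ : ℕ, ∀ k : ℕ, k₀ ≤ k →
    ∀ U : Set (Fin k → ℕ), U ⊆ L k →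
      c₁ * (k : ℝ) ^ (-(3 / 2) : ℝ) * ((2 * k).choose k : ℝ) ≤ (U.ncard : ℝ) →
      c₂ * (k : ℝ) ^ 2 * (U.ncard : ℝ) ≤ (e U : ℝ) := by
  classical
  obtain ⟨k₀, h⟩ := supersat_LL
  refine ⟨1536, 1 / 67108864, by norm_num, by norm_num, k₀, fun k hk U hU hc => ?_⟩
  set V : Finset (LL k) := Finset.univ.filter fun x => x.1 ∈ U with hV
  have hUV : U = Subtype.val '' (V : Set (LL k)) := by
    ext x
    simp only [hV, Finset.coe_filter, Finset.mem_univ, true_and, Set.mem_image, Set.mem_ofPred_eq]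
    constructor
    · intro hx
      exact ⟨⟨x, hU hx⟩, hx, rfl⟩
    · rintro ⟨y, hy, rfl⟩
      exact hy
  have hcard : U.ncard = V.card := by
    rw [hUV, Set.ncard_image_of_injective _ Subtype.val_injective, Set.ncard_coe_finset]
  have he : e U = ((V ×ˢ V).filter fun p => p.1 < p.2).card := by
    have h1 : {p : (Fin k → ℕ) × (Fin k → ℕ) | p.1 ∈ U ∧ p.2 ∈ U ∧ p.1 < p.2} =
        (fun p : LL k × LL k => (p.1.1, p.2.1)) ''
          (((V ×ˢ V).filter fun p => p.1 < p.2 : Finset (LL k × LL k)) : Set (LL k × LL k)) := by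
      ext ⟨x, y⟩
      simp only [hV, Set.mem_ofPred_eq, Set.mem_image, Finset.coe_filter, Finset.mem_product,
        Finset.mem_filter, Finset.mem_univ, true_and, Prod.mk.injEq, Prod.exists]
      constructor
      · rintro ⟨hx, hy, hxy⟩
        exact ⟨⟨x, hU hx⟩, ⟨y, hU hy⟩, ⟨⟨hx, hy⟩, hxy⟩, rfl, rfl⟩
      · rintro ⟨a, b, ⟨⟨ha, hb⟩, hab⟩, rfl, rfl⟩
        exact ⟨ha, hb, hab⟩
    unfold e
    rw [h1, Set.ncard_image_of_injective, Set.ncard_coe_finset]
    rintro ⟨a, b⟩ ⟨a', b'⟩ hab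
    simp only [Prod.mk.injEq] at hab
    rw [Prod.mk.injEq]
    exact ⟨Subtype.ext hab.1, Subtype.ext hab.2⟩
  rw [hcard] at hc ⊢
  rw [he]
  have hr : (k : ℝ) ^ (-(3 / 2) : ℝ) = ((k : ℝ) ^ (3 / 2 : ℝ))⁻¹ :=
    Real.rpow_neg (Nat.cast_nonneg k) _
  rw [hr] at hc
  have := h k hk V hc
  have h2 : (1 / 67108864 : ℝ) * (k : ℝ) ^ 2 * (V.card : ℝ) =
      ((k : ℝ) ^ 2 * V.card) / 67108864 := by ring
  rw [h2, div_le_iff₀ (by norm_num)]
  linarith

end Pool.Agent.Results.MP_75c11f_co.Supersaturation
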